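import Pool.Agent.W345.GK.Gau

/-! Project GK (helper345), part C3 (helper347): conjugates of a root. -/

set_option autoImplicit false

open Polynomial Finset

namespace Pool.Agent.W347.GK

open Pool.Agent.W345.GK

section
variable {k F : Type} [Field k] [Fintype k] [Field F] [Algebra k F]

theorem aev_pow (θ : F) (a : k[X]) (j : ℕ) :
    aeval (θ ^ (Fintype.card k ^ j)) a = (aeval θ a) ^ (Fintype.card k ^ j) := by
  induction j with
  | zero => simp
  | succ j ih =>
    rw [pow_succ, pow_mul, pow_mul, ← ih, ← map_pow, ← FiniteField.expand_card, expand_aeval]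

end

theorem c3 : S_C3 := by
  classical
  intro k F _ _ _ _ P θ hm hirr hroot
  have : Fact (Irreducible P) := ⟨hirr⟩
  have hmin : P = minpoly k θ := minpoly.eq_of_irreducible_of_monic hirr hroot hm
  set q := Fintype.card k with hq
  set d := P.natDegree with hd
  -- the field
  let pb : PowerBasis k (AdjoinRoot P) := AdjoinRoot.powerBasis' hm
  have hfin : Module.Finite k (AdjoinRoot P) := hm.finite_adjoinRoot
  have hF : Finite (AdjoinRoot P) := Module.finite_of_finite k
  have : Fintype (AdjoinRoot P) := Fintype.ofFinite _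
  have hcard : Fintype.card (AdjoinRoot P) = q ^ d := by
    have h1 := Module.card_fintype pb.basis
    rw [Fintype.card_fin] at h1
    exact h1
  let φ : AdjoinRoot P →ₐ[k] F := AdjoinRoot.liftAlgHom P (Algebra.ofId k F) θ hroot
  have hφr : φ (AdjoinRoot.root P) = θ := AdjoinRoot.liftAlgHom_root _ _ _ _
  have hφ : ∀ a : k[X], φ (AdjoinRoot.mk P a) = aeval θ a := by
    intro a
    have h1 : (AdjoinRoot.mk P) a = aeval (AdjoinRoot.root P) a := (AdjoinRoot.aeval_eq a).symm
    rw [h1, ← aeval_algHom_apply, hφr]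
  have hinj : Function.Injective φ := φ.toRingHom.injective
  have hq2 : 2 ≤ q := Fintype.one_lt_card
  have c1 : θ ^ (q ^ d) = θ := by
    rw [← hφr, ← map_pow, ← hcard, FiniteField.pow_card]
  have c2 : ∀ i j : ℕ, i < j → j < d → θ ^ (q ^ i) ≠ θ ^ (q ^ j) := by
    intro i j hij hj h
    have h1 : θ ^ (q ^ (i + (d - j))) = θ := by
      rw [pow_add, pow_mul, h, ← pow_mul, ← pow_add, show j + (d - j) = d by omega, c1]
    set m := i + (d - j) with hmm
    have hm0 : 0 < m := by omega
    have hmd : m < d := by omega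
    have h2 : ∀ x : AdjoinRoot P, x ^ (q ^ m) = x := by
      intro x
      obtain ⟨a, rfl⟩ := AdjoinRoot.mk_surjective x
      apply hinj
      rw [map_pow, hφ, ← aev_pow, h1]
    have hqm : 1 < q ^ m := Nat.one_lt_pow hm0.ne' hq2
    have h3 : (univ : Finset (AdjoinRoot P)).card ≤
        (X ^ (q ^ m) - X : (AdjoinRoot P)[X]).natDegree := by
      apply card_le_degree_of_subset_roots
      intro x _
      rw [mem_roots (FiniteField.X_pow_card_sub_X_ne_zero _ hqm)]
      simp [h2 x]
    rw [FiniteField.X_pow_card_sub_X_natDegree_eq _ hqm, card_univ, hcard] at h3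
    have h4 : q ^ m < q ^ d := Nat.pow_lt_pow_right (by omega) hmd
    omega
  have c2' : ∀ i < d, ∀ j < d, θ ^ (q ^ i) = θ ^ (q ^ j) → i = j := by
    intro i hi j hj h
    rcases lt_trichotomy i j with h1 | h1 | h1
    · exact absurd h (c2 i j h1 hj)
    · exact h1
    · exact absurd h.symm (c2 j i h1 hi)
  refine ⟨c1, c2', ?_, aev_pow θ, ?_, ?_⟩
  · symm
    have hprod : (∏ j ∈ range d, (X - C (θ ^ (q ^ j)))).Monic :=
      monic_prod_of_monic _ _ fun j _ => monic_X_sub_C _
    have hdeg : (∏ j ∈ range d, (X - C (θ ^ (q ^ j)))).natDegree = d := by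
      rw [natDegree_prod_of_monic _ _ fun j _ => monic_X_sub_C _]
      simp only [natDegree_X_sub_C, sum_const, card_range, smul_eq_mul, mul_one]
    have hdvd : (∏ j ∈ range d, (X - C (θ ^ (q ^ j)))) ∣ P.map (algebraMap k F) := by
      apply Finset.prod_dvd_of_coprime
      · intro i hi j hj hij
        apply isCoprime_X_sub_C_of_isUnit_sub
        rw [isUnit_iff_ne_zero]
        intro h
        apply hij
        simp only [coe_range, Set.mem_Iio] at hi hj
        exact c2' i hi j hj (sub_eq_zero.1 h)
      · intro j _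
        rw [dvd_iff_isRoot, IsRoot.def, eval_map_algebraMap, aev_pow, hroot]
        exact zero_pow (pow_pos (by omega) _).ne'
    symm
    apply eq_of_monic_of_dvd_of_natDegree_le hprod (hm.map _) hdvd
    rw [hdeg, natDegree_map]
  · intro a
    rw [hmin]
    exact ⟨minpoly.dvd k θ, fun ⟨b, hb⟩ => by rw [hb, map_mul, minpoly.aeval, zero_mul]⟩
  · intro e he
    have h1 : ∀ a : Fin d → k, aeval θ (pol a) = φ (pb.basis.equivFun.symm a) := by
      intro a
      rw [Module.Basis.equivFun_symm_apply, map_sum]
      unfold pol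
      rw [map_sum]
      refine sum_congr rfl fun i _ => ?_
      rw [map_mul, aeval_C, map_pow, aeval_X, map_smul, pb.coe_basis]
      have h2 : φ (pb.gen ^ (i : ℕ)) = θ ^ (i : ℕ) := by
        rw [map_pow]
        congr 1
      rw [h2, Algebra.smul_def]
    have h3 : ∑ a : Fin d → k, (aeval θ (pol a)) ^ e = ∑ x : AdjoinRoot P, φ x ^ e := by
      rw [← Equiv.sum_comp pb.basis.equivFun.symm.toEquiv (fun x => φ x ^ e)]
      refine sum_congr rfl fun a _ => ?_
      rw [h1]
      rfl
    rw [h3]
    have h4 : ∑ x : AdjoinRoot P, φ x ^ e = φ (∑ x : AdjoinRoot P, x ^ e) := by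
      rw [map_sum]
      exact sum_congr rfl fun x _ => (map_pow _ _ _).symm
    have h5 : ∑ x : AdjoinRoot P, x ^ e = ∑ x : (AdjoinRoot P)ˣ, ((x : AdjoinRoot P) ^ e) := by
      have hmap : (univ.map ⟨((↑) : (AdjoinRoot P)ˣ → AdjoinRoot P), Units.val_injective⟩ :
          Finset (AdjoinRoot P)) = univ \ {0} := by
        ext x
        simp only [mem_map, mem_univ, Function.Embedding.coeFn_mk, true_and, mem_sdiff,
          mem_singleton]
        constructor
        · rintro ⟨u, rfl⟩
          exact u.ne_zero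
        · intro hx
          exact ⟨Units.mk0 x hx, rfl⟩
      rw [← sum_sdiff (subset_univ ({0} : Finset (AdjoinRoot P))), sum_singleton,
        zero_pow he.ne', add_zero, ← hmap, sum_map]
      rfl
    rw [h4, h5, FiniteField.sum_pow_units, hcard]
    split_ifs
    · simp
    · simp

end Pool.Agent.W347.GK
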